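import Pool.Agent.Y560.TF.GeS

/-!
Project TF (helper560): classes and labels over a point outside the class.
-/

set_option autoImplicit false
set_option linter.unusedVariables false
set_option linter.unusedSectionVars false

namespace Pool.Agent.Y270.TF

open Pool.Agent.Y560.TF.Ge

/-- one-sided form of the claim -/
theorem claim_aux {Γ X : Type} [Group Γ] [PartialOrder X] [MulAction Γ X] [Tr Γ X]
    (y x s : X) (hn : ∀ γ : Γ, ¬ IN Γ y s (γ • x)) (a b : Γ)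
    (h : SL Γ y (a • s) (b • s)) (hle : a • s ≤ b • s) : SL Γ x (a • s) (b • s) := by
  have hsep : ∀ c d γ : Γ, SL Γ y (c • s) (d • s) → c • s ≤ γ • x → d • s ≤ γ • x := by
    intro c d γ h1 h2
    by_contra h3
    exact hn γ ⟨c, d, h1, h2, h3⟩
  -- κ q
  have hκ : (b * a⁻¹) • (a • s) = b • s := by rw [← mul_smul]; simp
  have hκq : SL Γ y (a • s) ((b * a⁻¹ * b) • s) := by
    have := h.smul (b * a⁻¹)
    rw [hκ, ← mul_smul] at this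
    exact h.trans this
  have hqκ : b • s ≤ (b * a⁻¹ * b) • s := by
    have : (b * a⁻¹) • (a • s) ≤ (b * a⁻¹) • (b • s) := sle.2 hle
    rwa [hκ, ← mul_smul] at this
  refine ⟨⟨fun γ => ⟨fun h1 => h1.trans hle, fun h1 => ?_⟩,
    fun γ => ⟨fun ⟨r, h1, h2⟩ => ⟨r, h1.trans hle, h2⟩, fun ⟨r, h1, h2⟩ => ?_⟩,
    fun γ δ => ⟨fun ⟨r, h1, h2⟩ => ⟨r, h1.trans hle, h2⟩, fun ⟨r, h1, h2, h3⟩ => ?_⟩⟩,
    fun γ => ⟨fun h1 => hsep a b γ h h1, fun h1 => hsep b a γ h.symm h1⟩⟩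
  · rcases cmp Γ hle h1 with h2 | h2
    · have h3 := hsep a (b * a⁻¹ * b) γ hκq h2
      have h4 : b • s = (b * a⁻¹ * b) • s := le_antisymm hqκ (h3.trans h1)
      have h5 : γ • x = b • s := le_antisymm h1 (h4 ▸ h3)
      have h6 : (b * a⁻¹) • (a • s) = (b * a⁻¹) • (b • s) := by
        rw [hκ, ← mul_smul]; exact h4
      have h7 : a • s = b • s := by
        have := congrArg (fun t => (b * a⁻¹)⁻¹ • t) h6
        simpa only [inv_smul_smul] using this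
      rw [h5, h7]
    · exact h2
  · rcases cmp Γ hle h1 with h4 | h4
    · exact ⟨_, le_rfl, h4.trans h2⟩
    · exact ⟨r, h4, h2⟩
  · rcases cmp Γ hle h1 with h4 | h4
    · exact ⟨_, le_rfl, h4.trans h2, fun h5 => h3 (h1.trans (hsep a b δ h h5))⟩
    · exact ⟨r, h4, h2, h3⟩

theorem claim {Γ X : Type} [Group Γ] [PartialOrder X] [MulAction Γ X] [Tr Γ X]
    (y x s : X) (hs : DD Γ y s) (hn : ∀ γ : Γ, ¬ IN Γ y s (γ • x)) (a b : Γ)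
    (h : SL Γ y (a • s) (b • s)) : SL Γ x (a • s) (b • s) := by
  rcases h.cmp (DD.smul a hs) le_rfl with h1 | h1
  · exact (claim_aux y x s hn b a h.symm h1).symm
  · exact claim_aux y x s hn a b h h1

theorem t_TL (h1 : S_EQV) (h2 : S_TYP) : S_TL := by
  intro Γ X _ _ _ _ y z x hx w hw
  obtain ⟨E1, E2, E3, E4, E5⟩ := h1 Γ X
  obtain ⟨T1, T2, T3, T4, T5, T6⟩ := h2 Γ X y z
  rcases hw with ⟨γ, hγ⟩ | ⟨γ, r, hr1, hr2, hr3⟩ | ⟨s, hs, hz, hw⟩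
  · exact Or.inl ⟨γ, hγ⟩
  · by_cases hrx : DD Γ x r
    · exfalso
      obtain ⟨δ, hδ⟩ := hrx
      apply hx
      rw [← E3 y z x δ]
      exact Or.inr (Or.inl ⟨γ, r, hr1, hδ, hr3⟩)
    · exact Or.inr (Or.inl ⟨γ, r, hr1, hr2, hrx⟩)
  · have hn : ∀ γ : Γ, ¬ IN Γ y s (γ • x) := by
      intro γ h
      rw [IN_smul] at h
      apply hx
      rw [T1 s hs hz]
      exact h
    obtain ⟨a, b, h3, h4, h5⟩ := hz
    obtain ⟨a', b', h3', h4', h5'⟩ := hw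
    by_cases hsx : DD Γ x s
    · exact Or.inr (Or.inr ⟨s, hsx, ⟨a, b, claim y x s hs hn a b h3, h4, h5⟩,
        ⟨a', b', claim y x s hs hn a' b' h3', h4', h5'⟩⟩)
    · refine Or.inr (Or.inl ⟨a' * a⁻¹, a' • s, ?_, h4', fun h => hsx (DD_smul.1 h)⟩)
      have : (a' * a⁻¹) • (a • s) ≤ (a' * a⁻¹) • z := sle.2 h4
      rwa [← mul_smul, inv_mul_cancel_right] at this

/-- the one-sided statement on `r ≤ v`, `r ≤ γ x` -/
theorem lu_aux (h1 : S_EQV) (h2 : S_TYP) (h3 : S_CUT) (h4 : S_CC) (h5 : S_M1)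
    {Γ X : Type} [Group Γ] [PartialOrder X] [MulAction Γ X] [Tr Γ X]
    (u z x v v' : X) (hx : x ∉ OB Γ u z) (hv : v ∈ OB Γ u z) (hv' : v' ∈ OB Γ u z)
    (hl : SL Γ u v v') (r : X) (γ : Γ) (hr : r ≤ v) (hrx : r ≤ γ • x) (hrv : ¬ r ≤ v') :
    ∃ p, p ≤ v' ∧ p < r ∧ ∀ δ : Γ, p ≤ δ • x → r ≤ δ • x := by
  obtain ⟨E1, E2, E3, E4, E5⟩ := h1 Γ X
  have hγ : ∀ γ : Γ, γ • x ∉ OB Γ u z := fun γ h => hx ((E3 u z x γ).1 h)
  have hrE : r ∈ OB Γ u z := by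
    by_contra h
    have h6 : r < v := lt_of_le_of_ne hr fun e => h (e ▸ hv)
    exact hrv ((h5 Γ X u z v v' r hv hv' hl h).2.1 h6).le
  have hrD : DD Γ u r := by
    by_contra h
    apply hγ γ
    rw [← E2 u z r hrE]
    exact Or.inr (Or.inl ⟨1, r, by rw [one_smul], hrx, h⟩)
  have hEv : OB Γ u v = OB Γ u z := E2 u z v hv
  obtain ⟨s, hs, hsv⟩ := h4 Γ X u v v' r (hEv ▸ hv') hl hrD hr hrv
  have hE : OB Γ u v = {x | IN Γ u s x} := (h2 Γ X u v).1 s hs hsv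
  have hE' : ∀ t, t ∈ OB Γ u z ↔ IN Γ u s t := by
    intro t
    rw [← hEv, hE]
    rfl
  have hn : ∀ (γ c d : Γ), SL Γ u (c • s) (d • s) → c • s ≤ γ • x → d • s ≤ γ • x := by
    intro γ c d h6 h7
    by_contra h8
    exact hγ γ ((hE' _).2 ⟨c, d, h6, h7, h8⟩)
  obtain ⟨a, b, hab, ha, hb⟩ := (hE' v').1 hv'
  obtain ⟨hc1, hc2⟩ := h3 Γ X u v v' hl.toRL
  have hcut : ∀ r, r ≤ v' → DD Γ u r → r ≤ v := by
    rcases hc1 with h6 | h6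
    · exact absurd (h6 r hr hrD) hrv
    · exact h6
  have hav : a • s ≤ v := hcut _ ha (DD.smul a hs)
  have har : a • s < r := by
    apply cmp_lt Γ hr hav
    intro h6
    exact hrv (h6.trans ha)
  refine ⟨a • s, ha, har, fun δ hδ => ?_⟩
  by_contra hrδ
  have hbγ : b • s ≤ γ • x := hn γ a b hab (har.le.trans hrx)
  have hbδ : b • s ≤ δ • x := hn δ a b hab hδ
  have hbr : b • s < r := by
    apply cmp_lt Γ hrx hbγ
    intro h6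
    exact hrδ (h6.trans hbδ)
  have hbr2 : SL Γ u (b • s) r :=
    (hc2 (b • s) (hbr.le.trans hr) (DD.smul b hs) hb).2 r hr hrD hrv
  obtain ⟨c, d, hcd, hc, hd⟩ := (hE' r).1 hrE
  have hdγ : d • s ≤ γ • x := hn γ c d hcd (hc.trans hrx)
  have hrd : r < d • s := cmp_lt Γ hdγ hrx hd
  have hcr : SL Γ u (c • s) r := hcd.mid hc hrd.le
  have had : SL Γ u (a • s) (d • s) := (hab.trans hbr2).trans (hcr.symm.trans hcd)
  exact hrδ (hrd.le.trans (hn δ a d had hδ))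

theorem t_LU (h1 : S_EQV) (h2 : S_TYP) (h3 : S_CUT) (h4 : S_CC) (h5 : S_M1) : S_LU := by
  intro Γ X _ _ _ _ u z x v v' hx hv hv' hl
  obtain ⟨E1, E2, E3, E4, E5⟩ := h1 Γ X
  have hγ : ∀ γ : Γ, γ • x ∉ OB Γ u z := fun γ h => hx ((E3 u z x γ).1 h)
  have hb : ∀ v v' : X, v ∈ OB Γ u z → v' ∈ OB Γ u z → SL Γ u v v' → ∀ γ : Γ,
      v ≤ γ • x → v' ≤ γ • x := by
    intro v v' hv hv' hl γ h
    have h6 : v < γ • x := lt_of_le_of_ne h fun e => hγ γ (e ▸ hv)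
    exact ((h5 Γ X u z v v' (γ • x) hv hv' hl (hγ γ)).1.1 h6).le
  have ha : ∀ v v' : X, v ∈ OB Γ u z → v' ∈ OB Γ u z → SL Γ u v v' → ∀ γ : Γ,
      γ • x ≤ v → γ • x ≤ v' := by
    intro v v' hv hv' hl γ h
    have h6 : γ • x < v := lt_of_le_of_ne h fun e => hγ γ (e ▸ hv)
    exact ((h5 Γ X u z v v' (γ • x) hv hv' hl (hγ γ)).2.1 h6).le
  have he : ∀ v v' : X, v ∈ OB Γ u z → v' ∈ OB Γ u z → SL Γ u v v' → ∀ γ : Γ,
      (∃ r, r ≤ v ∧ r ≤ γ • x) → ∃ r, r ≤ v' ∧ r ≤ γ • x := by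
    rintro v v' hv hv' hl γ ⟨r, hr, hrx⟩
    by_cases hrv : r ≤ v'
    · exact ⟨r, hrv, hrx⟩
    · obtain ⟨p, hp1, hp2, hp3⟩ := lu_aux h1 h2 h3 h4 h5 u z x v v' hx hv hv' hl r γ hr hrx hrv
      exact ⟨p, hp1, hp2.le.trans hrx⟩
  have hd : ∀ v v' : X, v ∈ OB Γ u z → v' ∈ OB Γ u z → SL Γ u v v' → ∀ γ δ : Γ,
      (∃ r, r ≤ v ∧ r ≤ γ • x ∧ ¬ r ≤ δ • x) → ∃ r, r ≤ v' ∧ r ≤ γ • x ∧ ¬ r ≤ δ • x := by
    rintro v v' hv hv' hl γ δ ⟨r, hr, hrx, hrd⟩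
    by_cases hrv : r ≤ v'
    · exact ⟨r, hrv, hrx, hrd⟩
    · obtain ⟨p, hp1, hp2, hp3⟩ := lu_aux h1 h2 h3 h4 h5 u z x v v' hx hv hv' hl r γ hr hrx hrv
      exact ⟨p, hp1, hp2.le.trans hrx, fun h => hrd (hp3 δ h)⟩
  exact ⟨⟨fun γ => ⟨ha v v' hv hv' hl γ, ha v' v hv' hv hl.symm γ⟩,
    fun γ => ⟨he v v' hv hv' hl γ, he v' v hv' hv hl.symm γ⟩,
    fun γ δ => ⟨hd v v' hv hv' hl γ δ, hd v' v hv' hv hl.symm γ δ⟩⟩,
    fun γ => ⟨hb v v' hv hv' hl γ, hb v' v hv' hv hl.symm γ⟩⟩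

end Pool.Agent.Y270.TF
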